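import Pool.Agent.Run7.h58.AR.Iface

/-! Piece LOG: a holomorphic logarithm on the disc. -/

set_option autoImplicit false

open MeasureTheory Filter Topology Set Complex

namespace Pool.Agent.Run7.h213.AR

open Pool.Agent.Run7.h58.AR

theorem t_LOG : S_LOG := by
  intro f hf hf0
  have hD : IsOpen D := Metric.isOpen_ball
  have hfd : ∀ z ∈ D, DifferentiableAt ℂ f z := fun z hz => (hf z hz).differentiableAt (hD.mem_nhds hz)
  have hdf : DifferentiableOn ℂ (deriv f) D := hf.deriv hD
  have hq : DifferentiableOn ℂ (fun z => deriv f z / f z) D := hdf.div hf hf0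
  obtain ⟨g, hg⟩ := DifferentiableOn.isExactOn_ball (c := 0) (r := 1) hq
  have hgd : DifferentiableOn ℂ g D := fun z hz => (hg z hz).differentiableAt.differentiableWithinAt
  have h0 : (0 : ℂ) ∈ D := Metric.mem_ball_self one_pos
  have hder : ∀ z ∈ D, HasDerivAt (fun z => f z * exp (-g z)) 0 z := by
    intro z hz
    have h1 := (hfd z hz).hasDerivAt
    have h2 : HasDerivAt (fun z => exp (-g z)) (exp (-g z) * -(deriv f z / f z)) z :=
      (hg z hz).neg.cexp
    have h3 := h1.mul h2
    have h4 : deriv f z * exp (-g z) + f z * (exp (-g z) * -(deriv f z / f z)) = 0 := by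
      have := hf0 z hz
      field_simp
      ring
    rw [h4] at h3
    exact h3
  have hconst : ∀ z ∈ D, f z * exp (-g z) = f 0 * exp (-g 0) := by
    intro z hz
    have hconv : Convex ℝ D := convex_ball 0 1
    have hdiff : DifferentiableOn ℂ (fun z => f z * exp (-g z)) D := fun w hw =>
      (hder w hw).differentiableAt.differentiableWithinAt
    refine hconv.is_const_of_fderivWithin_eq_zero (𝕜 := ℂ) hdiff (fun w hw => ?_) hz h0
    rw [fderivWithin_of_isOpen hD hw]
    have := (hder w hw).hasFDerivAt.fderiv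
    rw [this]
    ext
    simp
  refine ⟨fun z => g z + Complex.log (f 0 * exp (-g 0)), hgd.add_const _, fun z hz => ?_⟩
  have hne : f 0 * exp (-g 0) ≠ 0 := mul_ne_zero (hf0 0 h0) (exp_ne_zero _)
  rw [exp_add, exp_log hne, ← hconst z hz]
  rw [← mul_assoc, mul_comm (exp (g z)) (f z), mul_assoc, ← exp_add, add_neg_cancel, exp_zero, mul_one]

end Pool.Agent.Run7.h213.AR
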